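import Pool.Agent.Q196.LG.Pair

/-!
# MP_3dbb84_gt, Q1: exact Lagrangian submanifolds of the cotangent bundle of the torus whose tangent
planes are one-sided

Q1 asks whether every closed exact Lagrangian submanifold `L` of the cotangent bundle of a closed
manifold `N` is the image of the zero section under a symplectic diffeomorphism.  The theorem gives
an infinitesimal condition on `L` for the torus `N = ℝⁿ/ℤⁿ`, in all dimensions.  Let `H` be a smooth
function on `T*Tⁿ`, `B z` its Hessian at `z` in the direction of the fibre.  It is enough that for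
some `C` and some `b > 0` the inequalities
`⟪a, B(z) β⟫ ≥ -C |a|²` and `b |β| ≤ |B(z) β| + C |a|`
hold for all tangent vectors `(a, β)` of `L` at all points `z` of `L`; the second one is automatic if
the matrices `B(z)` with `z` in `L` are invertible.  The first one says something only where `L` is
almost tangent to the fibres; since `H` may depend on all variables, the sign of the condition can
be different at different points of `L`.  The submanifold `L` need not be a graph (it may have
vertical tangencies and contain vertical segments; transversal crossings of the fibre direction,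
that is folds, are excluded by the condition), and neither its connectedness nor its homotopy type is
assumed.

The method: for small `t` the symplectic diffeomorphism with the generating function `t H` (in mixed
variables, cut off for large `p`) moves `L` to an exact Lagrangian submanifold transverse to the
fibres.  Such a submanifold meets each fibre only once, since otherwise the difference of the values
of a primitive of `p dq` at two points of `L` in the same fibre would have a maximum.
-/

set_option autoImplicit false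

open Set Function
open scoped ContDiff RealInnerProductSpace

noncomputable section

namespace Pool.Agent.Results.MP_3dbb84_gt.ExactOneSidedTangents

/-- the space `ℝⁿ` -/
abbrev E (n : ℕ) : Type := EuclideanSpace ℝ (Fin n)

/-- the integer vector `k` -/
def latt {n : ℕ} (k : Fin n → ℤ) : E n := WithLp.toLp 2 (fun i => (k i : ℝ))

/-- the symplectic form `dp ∧ dq` of `ℝⁿ × ℝⁿ`; the points and the vectors are pairs `(q, p)` -/
def om {n : ℕ} (a b : E n × E n) : ℝ :=
  ⟪a.2, b.1⟫ - ⟪b.2, a.1⟫

/-- `F : ℝⁿ → ℝⁿ × ℝⁿ` is an injective smooth immersion -/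
def IsInjImmersion {n : ℕ} (F : E n → E n × E n) : Prop :=
  ContDiff ℝ ∞ F ∧ Injective F ∧ ∀ s v, fderiv ℝ F s v = 0 → v = 0

/-- `F` pulls back `dp ∧ dq` to zero -/
def IsIsotropic {n : ℕ} (F : E n → E n × E n) : Prop :=
  ∀ s v w, om (fderiv ℝ F s v) (fderiv ℝ F s w) = 0

/-- `Λ ⊆ ℝⁿ × ℝⁿ` is the preimage of a nonempty compact Lagrangian submanifold without boundary of
the cotangent bundle `ℝⁿ/ℤⁿ × ℝⁿ` of the torus: it is closed, invariant under the translations
`(q, p) ↦ (q + k, p)`, bounded in `p`, and every point `z` of `Λ` is `F 0` for an injective smooth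
immersion `F : ℝⁿ → ℝⁿ × ℝⁿ` which is open as a map to `Λ` and pulls back `dp ∧ dq` to zero. -/
structure IsLagrangianLift (n : ℕ) (Λ : Set (E n × E n)) : Prop where
  closed : IsClosed Λ
  nonempty : Λ.Nonempty
  per : ∀ z ∈ Λ, ∀ k : Fin n → ℤ, (z.1 + latt k, z.2) ∈ Λ
  bdd : ∃ R : ℝ, ∀ z ∈ Λ, ‖z.2‖ ≤ R
  par : ∀ z ∈ Λ, ∃ F : E n → E n × E n, F 0 = z ∧ IsInjImmersion F ∧ IsIsotropic F ∧
    ∀ V : Set (E n), IsOpen V → ∃ U, IsOpen U ∧ F '' V = Λ ∩ U

/-- `v` is a tangent vector of `Λ` at `z`: the velocity of a smooth curve in `Λ` -/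
def IsTangent {n : ℕ} (Λ : Set (E n × E n)) (z v : E n × E n) : Prop :=
  ∃ γ : ℝ → E n × E n, ContDiff ℝ ∞ γ ∧ (∀ r, γ r ∈ Λ) ∧ γ 0 = z ∧ HasDerivAt γ v 0

/-- the Lagrangian submanifold with the preimage `Λ` is exact: the form `p dq` on it is the
differential of (the function induced by) a smooth function `f` -/
def IsExact {n : ℕ} (Λ : Set (E n × E n)) : Prop :=
  ∃ f : E n × E n → ℝ, ContDiff ℝ ∞ f ∧
    (∀ z ∈ Λ, ∀ k : Fin n → ℤ, f (z.1 + latt k, z.2) = f z) ∧
    ∀ z ∈ Λ, ∀ v, IsTangent Λ z v → fderiv ℝ f z v = ⟪z.2, v.1⟫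

/-- the derivative of `H` at `z` in the direction `w` of the fibre -/
def vder {n : ℕ} (H : E n × E n → ℝ) (w : E n) (z : E n × E n) : ℝ := fderiv ℝ H z (0, w)

/-- `H` is (the lift of) a smooth function on the cotangent bundle of the torus and `B z` is the
matrix of its Hessian at `z` in the direction of the fibre -/
structure IsVerticalHessian {n : ℕ} (H : E n × E n → ℝ) (B : E n × E n → E n →L[ℝ] E n) : Prop where
  smooth : ContDiff ℝ ∞ H
  per : ∀ z, ∀ k : Fin n → ℤ, H (z.1 + latt k, z.2) = H z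
  hess : ∀ z v w, ⟪B z v, w⟫ = vder (vder H w) v z

/-- the tangent planes of `Λ` are one-sided with respect to `B` -/
def HasOneSidedTangents {n : ℕ} (Λ : Set (E n × E n)) (B : E n × E n → E n →L[ℝ] E n) : Prop :=
  ∃ C b : ℝ, 0 < b ∧ ∀ z ∈ Λ, ∀ v, IsTangent Λ z v →
    -C * ‖v.1‖ ^ 2 ≤ ⟪v.1, B z v.2⟫ ∧ b * ‖v.2‖ ≤ ‖B z v.2‖ + C * ‖v.1‖

/-- `ψ` and its inverse are smooth -/
def IsSmoothDiffeo {n : ℕ} (ψ : E n × E n ≃ E n × E n) : Prop :=
  ContDiff ℝ ∞ ψ ∧ ContDiff ℝ ∞ ψ.symm

/-- `ψ` preserves the symplectic form -/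
def PreservesForm {n : ℕ} (ψ : E n × E n ≃ E n × E n) : Prop :=
  ∀ z a b, om (fderiv ℝ ψ z a) (fderiv ℝ ψ z b) = om a b

/-- Closed exact Lagrangian submanifolds of the cotangent bundle of the torus, whose tangent planes
are one-sided with respect to the vertical Hessian of a smooth function on the cotangent bundle, are
images of the zero section under symplectic diffeomorphisms. -/
theorem result (n : ℕ) (Λ : Set (E n × E n)) (hΛ : IsLagrangianLift n Λ) (hE : IsExact Λ)
    (H : E n × E n → ℝ) (B : E n × E n → E n →L[ℝ] E n) (hB : IsVerticalHessian H B)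
    (hC : HasOneSidedTangents Λ B) :
    ∃ ψ : E n × E n ≃ E n × E n, IsSmoothDiffeo ψ ∧ PreservesForm ψ ∧
      (∀ z k, ψ (z.1 + latt k, z.2) = ((ψ z).1 + latt k, (ψ z).2)) ∧
      ψ '' {z | z.2 = 0} = Λ := by
  obtain ⟨C, b, hb, hC⟩ := hC
  obtain ⟨f, hf, hfp, hfd⟩ := hE
  have hH : ∀ z v w, ⟪B z v, w⟫ = fderiv ℝ (fderiv ℝ H) z (0, v) (0, w) := by
    intro z v w
    rw [hB.hess z v w]
    have hD : ContDiff ℝ ∞ (fderiv ℝ H) := hB.smooth.fderiv_right (by simp)
    have h3 : HasFDerivAt (fun y => fderiv ℝ H y ((0 : E n), w))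
        ((fderiv ℝ (fderiv ℝ H) z).flip ((0 : E n), w)) z := by
      have := ((hD.differentiable (by simp) z).hasFDerivAt).clm_apply
        (hasFDerivAt_const ((0 : E n), w) z)
      simpa using this
    exact DFunLike.congr_fun h3.fderiv ((0 : E n), v)
  obtain ⟨ψ, h1, h2, h3, h4, h5⟩ := Pool.Agent.Q196.LG.one_sided
    ⟨hΛ.closed, hΛ.nonempty, hΛ.per, hΛ.bdd, fun z hz => by
      obtain ⟨F, f1, ⟨f2, f3, f4⟩, f5, f6⟩ := hΛ.par z hz
      exact ⟨F, f2, f1, f3, f6, f4, f5⟩⟩ (f := f) ⟨hf, hfp, hfd⟩ hB.smooth hB.per hH hb hC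
  exact ⟨ψ, ⟨h1, h2⟩, h4, h3, h5⟩

end Pool.Agent.Results.MP_3dbb84_gt.ExactOneSidedTangents
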